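import Mathlib
import Pool.Agent.SLM.Main

/-!
# One ideal with continuum many slalom numbers, in a Boolean valued universe

In `V^B` there is one ideal `J` on `ω` such that the cardinals `sl_e(h, J)`, for nondecreasing
unbounded functions `h` from `ω` to `ω`, take at least (hence exactly) `2^{ℵ₀}` values.
-/

set_option autoImplicit false

open Cardinal

namespace Pool.Agent.Results.MP_8b2a7f_lc.OneIdealManyValues

open CpB

/-- There is a nondegenerate complete Boolean algebra `B` with the following property. Uncountable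
cardinals are preserved in the Boolean valued universe `V^B`. There are a set `Λ`, sets `K l` of
pairwise different cardinalities in `V^B` (`l ∈ Λ`), a `B`-valued ideal `J` on `ω` and names `h l`
of functions from `ω` to `ω` such that, with Boolean value `⊤`, `Λ` maps onto `ω^ω` (so that
`2^{ℵ₀} ≤ |Λ|`), the functions `h l` are nondecreasing and unbounded, and `sl_e(h l, J) = |K l|`
for every `l ∈ Λ`. So `|V_J| = 2^{ℵ₀}` in `V^B`. -/
theorem result : ∃ (B : Type) (_ : CompleteBooleanAlgebra B) (Λ : Type) (K : Λ → Type)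
    (J : (ℕ → B) → B) (h : Λ → Fun B ℕ ℕ), (⊥ : B) ≠ ⊤ ∧
    (∀ X Y : Type, ℵ₀ < #Y → #X < #Y → noSurj B X Y = ⊤) ∧
    (∀ l l', l ≠ l' → noSurj B (K l) (K l') ⊔ noSurj B (K l') (K l) = ⊤) ∧
    (∃ y : Λ → Fun B ℕ ℕ, ∀ x, ⨆ l, eqv (y l) x = ⊤) ∧
    isIdeal J = ⊤ ∧ ∀ l, isMono (h l) = ⊤ ∧ isUnbounded (h l) = ⊤ ∧ slEq (h l) J (K l) = ⊤ :=
  SLM.main

end Pool.Agent.Results.MP_8b2a7f_lc.OneIdealManyValues
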