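import Mathlib

/-!
# One ideal realising the slalom numbers of all ideals

There is a single ideal `J` on `ω` such that `V_J` contains the two anti-localisation slalom
numbers `sl_e(h', J')` and `sl_e^⊥(h', J')` of every ideal `J'` and every `h'`, and all four slalom
numbers of every maximal ideal `J'`.
-/

namespace Pool.Agent.Results.MP_8b2a7f_lc.UniversalIdeal

open Set Cardinal

/-- `J` is a proper ideal of subsets of `ℕ` which contains all finite sets. -/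
structure IsIdeal (J : Set (Set ℕ)) : Prop where
  finite_mem : ∀ A : Set ℕ, A.Finite → A ∈ J
  subset_mem : ∀ A B : Set ℕ, A ⊆ B → B ∈ J → A ∈ J
  union_mem : ∀ A B : Set ℕ, A ∈ J → B ∈ J → A ∪ B ∈ J
  proper : Set.univ ∉ J

/-- `J` is a maximal ideal (the dual of a nonprincipal ultrafilter). -/
def IsMaximalIdeal (J : Set (Set ℕ)) : Prop := IsIdeal J ∧ ∀ A : Set ℕ, A ∈ J ∨ Aᶜ ∈ J

/-- The set `S_h` of `h`-slaloms: sequences `s` of finite sets with `|s(n)| ≤ h(n)`. -/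
def Slaloms (h : ℕ → ℕ) : Set (ℕ → Finset ℕ) := {s | ∀ n, (s n).card ≤ h n}

/-- The families `𝒮 ⊆ S_h` of slaloms over which the minimum defining `sl_t(h, J)` is taken. -/
def FamT (h : ℕ → ℕ) (J : Set (Set ℕ)) : Set (Set (ℕ → Finset ℕ)) :=
  {𝒮 | 𝒮 ⊆ Slaloms h ∧ ∀ x : ℕ → ℕ, ∃ s ∈ 𝒮, {n | x n ∉ s n} ∈ J}

/-- The families `𝒮 ⊆ S_h` of slaloms over which the minimum defining `sl_e(h, J)` is taken. -/
def FamE (h : ℕ → ℕ) (J : Set (Set ℕ)) : Set (Set (ℕ → Finset ℕ)) :=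
  {𝒮 | 𝒮 ⊆ Slaloms h ∧ ∀ x : ℕ → ℕ, ∃ s ∈ 𝒮, {n | x n ∈ s n} ∉ J}

/-- The families `F ⊆ ω^ω` over which the minimum defining `sl_t^⊥(h, J)` is taken. -/
def FamTdual (h : ℕ → ℕ) (J : Set (Set ℕ)) : Set (Set (ℕ → ℕ)) :=
  {F | ∀ s ∈ Slaloms h, ∃ x ∈ F, {n | x n ∉ s n} ∉ J}

/-- The families `F ⊆ ω^ω` over which the minimum defining `sl_e^⊥(h, J)` is taken. -/
def FamEdual (h : ℕ → ℕ) (J : Set (Set ℕ)) : Set (Set (ℕ → ℕ)) :=
  {F | ∀ s ∈ Slaloms h, ∃ x ∈ F, {n | x n ∈ s n} ∈ J}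

/-- `κ` is the minimum of the cardinalities of the members of the family `𝒜` (in particular `𝒜` is
nonempty). -/
def IsMinCard {α : Type} (𝒜 : Set (Set α)) (κ : Cardinal.{0}) : Prop :=
  (∃ A ∈ 𝒜, #A = κ) ∧ ∀ A ∈ 𝒜, κ ≤ #A

/-- The set `V_J` of the well-defined values of the four slalom numbers, with `J` fixed and `h`
varying. -/
def V (J : Set (Set ℕ)) : Set Cardinal.{0} :=
  {κ | ∃ h : ℕ → ℕ, IsMinCard (FamT h J) κ ∨ IsMinCard (FamE h J) κ ∨
    IsMinCard (FamTdual h J) κ ∨ IsMinCard (FamEdual h J) κ}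

/-- The set of the well-defined values of `sl_e(h, J)` and `sl_e^⊥(h, J)`, with `h` varying. -/
def VE (J : Set (Set ℕ)) : Set Cardinal.{0} :=
  {κ | ∃ h : ℕ → ℕ, IsMinCard (FamE h J) κ ∨ IsMinCard (FamEdual h J) κ}

/-! ### An almost disjoint family -/

/-- The enumeration of the branch `b`. -/
def en (b : ℕ → Bool) (m : ℕ) : ℕ := Encodable.encode (List.ofFn fun i : Fin m => b i)

theorem en_eq {b b' : ℕ → Bool} {m m' : ℕ} (h : en b m = en b' m') :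
    m = m' ∧ ∀ i < m, b i = b' i := by
  have h1 := Encodable.encode_injective h
  have h2 : m = m' := by
    have := congrArg List.length h1
    simpa using this
  subst h2
  refine ⟨rfl, fun i hi => ?_⟩
  have h3 := List.ofFn_injective h1
  exact congrFun h3 ⟨i, hi⟩

theorem en_injective (b : ℕ → Bool) : Function.Injective (en b) := fun _ _ h => (en_eq h).1

theorem en_disjoint {b b' : ℕ → Bool} (h : b ≠ b') : {m | en b m ∈ range (en b')}.Finite := by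
  obtain ⟨i, hi⟩ := Function.ne_iff.mp h
  refine (finite_Iic i).subset ?_
  rintro m ⟨m', hm'⟩
  by_contra hcon
  have hcon' : i < m := not_le.mp hcon
  obtain ⟨h1, h2⟩ := en_eq hm'
  subst h1
  exact hi (h2 i hcon').symm

/-! ### The cardinals up to the continuum -/

theorem exists_embedding : Nonempty ((Iic (𝔠 : Cardinal.{0})) ↪ (ℕ → Bool)) := by
  have h1 : #(ℕ → Bool) = 𝔠 := by simp
  have h2 : #(Iic (𝔠 : Cardinal.{0})) ≤ #(Iio (Order.succ (𝔠 : Cardinal.{0}).ord)) := by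
    refine mk_le_of_injective (f := fun κ => ⟨κ.1.ord, ?_⟩) ?_
    · exact Order.lt_succ_iff.mpr (ord_le_ord.mpr κ.2)
    · intro κ κ' h
      have h3 : κ.1.ord = κ'.1.ord := congrArg Subtype.val h
      exact Subtype.ext (ord_injective h3)
  have h3 : (Order.succ (𝔠 : Cardinal.{0}).ord).card = 𝔠 := by
    rw [Order.succ_eq_add_one, Ordinal.card_add_one, card_ord]
    exact add_one_eq aleph0_le_continuum
  rw [mk_Iio_ordinal, h3] at h2
  have h4 : lift.{0} #(Iic (𝔠 : Cardinal.{0})) ≤ lift.{1} #(ℕ → Bool) := by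
    rw [h1, lift_uzero]
    exact h2
  exact lift_mk_le'.mp h4

theorem le_continuum_of_slalom (A : Set (ℕ → Finset ℕ)) : #A ≤ 𝔠 := by
  refine (mk_set_le A).trans ?_
  simp

theorem le_continuum_of_fun (A : Set (ℕ → ℕ)) : #A ≤ 𝔠 := by
  refine (mk_set_le A).trans ?_
  simp

/-! ### The ideal glued from a family of ideals along the branches -/

/-- The ideal whose restriction to the branch `b` is (a copy of) `𝒥 b`, for `b ∈ I`. -/
def glue (I : Set (ℕ → Bool)) (𝒥 : (ℕ → Bool) → Set (Set ℕ)) : Set (Set ℕ) :=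
  {A | ∀ b ∈ I, {m | en b m ∈ A} ∈ 𝒥 b}

variable {I : Set (ℕ → Bool)} {𝒥 : (ℕ → Bool) → Set (Set ℕ)}

theorem isIdeal_glue (hI : I.Nonempty) (h𝒥 : ∀ b ∈ I, IsIdeal (𝒥 b)) : IsIdeal (glue I 𝒥) where
  finite_mem A hA b hb := (h𝒥 b hb).finite_mem _ (hA.preimage (en_injective b).injOn)
  subset_mem A B hAB hB b hb :=
    (h𝒥 b hb).subset_mem _ {m | en b m ∈ B} (fun _ hm => hAB hm) (hB b hb)
  union_mem A B hA hB b hb := (h𝒥 b hb).union_mem _ _ (hA b hb) (hB b hb)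
  proper h := by
    obtain ⟨b, hb⟩ := hI
    exact (h𝒥 b hb).proper (h b hb)

/-- Membership in the glued ideal of a set contained in one branch. -/
theorem mem_glue_iff (h𝒥 : ∀ b ∈ I, IsIdeal (𝒥 b)) {b : ℕ → Bool} (hb : b ∈ I) {A : Set ℕ}
    (hA : A ⊆ range (en b)) : A ∈ glue I 𝒥 ↔ {m | en b m ∈ A} ∈ 𝒥 b := by
  refine ⟨fun h => h b hb, fun h b' hb' => ?_⟩
  by_cases hbb : b' = b
  · rw [hbb]
    exact h
  · exact (h𝒥 b' hb').finite_mem _ ((en_disjoint hbb).subset fun m hm => hA hm)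

open Classical in
/-- The extension by `0` (or by the empty set) of a function on the branch `b`. -/
noncomputable def ext {X : Type} (x₀ : X) (b : ℕ → Bool) (f : ℕ → X) (n : ℕ) : X :=
  if h : ∃ m, en b m = n then f (Classical.choose h) else x₀

theorem ext_en {X : Type} (x₀ : X) (b : ℕ → Bool) (f : ℕ → X) (m : ℕ) :
    ext x₀ b f (en b m) = f m := by
  have h : ∃ m', en b m' = en b m := ⟨m, rfl⟩
  unfold ext
  rw [dif_pos h, en_injective b (Classical.choose_spec h)]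

theorem ext_off {X : Type} (x₀ : X) (b : ℕ → Bool) (f : ℕ → X) {n : ℕ} (h : n ∉ range (en b)) :
    ext x₀ b f n = x₀ := by
  have h' : ¬ ∃ m, en b m = n := h
  unfold ext
  rw [dif_neg h']

theorem ext_mem_slaloms {h : ℕ → ℕ} {s : ℕ → Finset ℕ} (hs : s ∈ Slaloms h) (b : ℕ → Bool) :
    ext ∅ b s ∈ Slaloms (ext 0 b h) := by
  intro n
  by_cases hn : n ∈ range (en b)
  · obtain ⟨m, rfl⟩ := hn
    rw [ext_en, ext_en]
    exact hs m
  · rw [ext_off _ _ _ hn, ext_off _ _ _ hn]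
    simp

theorem comp_mem_slaloms {h : ℕ → ℕ} {b : ℕ → Bool} {s : ℕ → Finset ℕ}
    (hs : s ∈ Slaloms (ext 0 b h)) : s ∘ en b ∈ Slaloms h := by
  intro m
  have := hs (en b m)
  rwa [ext_en] at this

theorem slalom_off {h : ℕ → ℕ} {b : ℕ → Bool} {s : ℕ → Finset ℕ}
    (hs : s ∈ Slaloms (ext 0 b h)) {n : ℕ} (hn : n ∉ range (en b)) : s n = ∅ := by
  have := hs n
  rw [ext_off _ _ _ hn] at this
  exact Finset.card_eq_zero.mp (Nat.le_zero.mp this)

theorem famE_glue (h𝒥 : ∀ b ∈ I, IsIdeal (𝒥 b)) {b : ℕ → Bool} (hb : b ∈ I) (h : ℕ → ℕ)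
    {κ : Cardinal.{0}} (hκ : IsMinCard (FamE h (𝒥 b)) κ) :
    IsMinCard (FamE (ext 0 b h) (glue I 𝒥)) κ := by
  have hup : ∀ 𝒮 ∈ FamE h (𝒥 b), (ext ∅ b) '' 𝒮 ∈ FamE (ext 0 b h) (glue I 𝒥) := by
    rintro 𝒮 ⟨h1, h2⟩
    refine ⟨?_, fun x => ?_⟩
    · rintro _ ⟨s, hs, rfl⟩
      exact ext_mem_slaloms (h1 hs) b
    · obtain ⟨s, hs, hx⟩ := h2 (x ∘ en b)
      refine ⟨_, mem_image_of_mem _ hs, fun h3 => hx ?_⟩
      have h4 := h3 b hb
      simp only [mem_ofPred_eq, ext_en] at h4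
      exact h4
  have hdown : ∀ 𝒮 ∈ FamE (ext 0 b h) (glue I 𝒥), (fun s => s ∘ en b) '' 𝒮 ∈ FamE h (𝒥 b) := by
    rintro 𝒮 ⟨h1, h2⟩
    refine ⟨?_, fun x => ?_⟩
    · rintro _ ⟨s, hs, rfl⟩
      exact comp_mem_slaloms (h1 hs)
    · obtain ⟨s, hs, hx⟩ := h2 (ext 0 b x)
      refine ⟨_, mem_image_of_mem _ hs, fun h3 => hx ?_⟩
      rw [mem_glue_iff h𝒥 hb]
      · simp only [mem_ofPred_eq, ext_en]
        exact h3
      · intro n hn
        by_contra hcon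
        rw [mem_ofPred_eq, slalom_off (h1 hs) hcon] at hn
        exact absurd hn (Finset.notMem_empty _)
  obtain ⟨⟨𝒮, h𝒮, h3⟩, h4⟩ := hκ
  have h5 : ∀ 𝒮 ∈ FamE (ext 0 b h) (glue I 𝒥), κ ≤ #𝒮 := fun 𝒮' h𝒮' =>
    (h4 _ (hdown 𝒮' h𝒮')).trans mk_image_le
  exact ⟨⟨_, hup 𝒮 h𝒮, le_antisymm (mk_image_le.trans h3.le) (h5 _ (hup 𝒮 h𝒮))⟩, h5⟩

theorem famEdual_glue (h𝒥 : ∀ b ∈ I, IsIdeal (𝒥 b)) {b : ℕ → Bool} (hb : b ∈ I) (h : ℕ → ℕ)
    {κ : Cardinal.{0}} (hκ : IsMinCard (FamEdual h (𝒥 b)) κ) :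
    IsMinCard (FamEdual (ext 0 b h) (glue I 𝒥)) κ := by
  have hup : ∀ F ∈ FamEdual h (𝒥 b), (ext 0 b) '' F ∈ FamEdual (ext 0 b h) (glue I 𝒥) := by
    intro F hF s hs
    obtain ⟨x, hx, h1⟩ := hF _ (comp_mem_slaloms hs)
    refine ⟨_, mem_image_of_mem _ hx, ?_⟩
    rw [mem_glue_iff h𝒥 hb]
    · simp only [mem_ofPred_eq, ext_en]
      exact h1
    · intro n hn
      by_contra hcon
      rw [mem_ofPred_eq, slalom_off hs hcon] at hn
      exact absurd hn (Finset.notMem_empty _)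
  have hdown : ∀ F ∈ FamEdual (ext 0 b h) (glue I 𝒥), (fun x => x ∘ en b) '' F ∈
      FamEdual h (𝒥 b) := by
    intro F hF s hs
    obtain ⟨x, hx, h1⟩ := hF _ (ext_mem_slaloms hs b)
    refine ⟨_, mem_image_of_mem _ hx, ?_⟩
    have h4 := h1 b hb
    simp only [mem_ofPred_eq, ext_en] at h4
    exact h4
  obtain ⟨⟨F, hF, h3⟩, h4⟩ := hκ
  have h5 : ∀ F ∈ FamEdual (ext 0 b h) (glue I 𝒥), κ ≤ #F := fun F' hF' =>
    (h4 _ (hdown F' hF')).trans mk_image_le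
  exact ⟨⟨_, hup F hF, le_antisymm (mk_image_le.trans h3.le) (h5 _ (hup F hF))⟩, h5⟩

/-- For maximal ideals there are only two slalom numbers. -/
theorem V_eq_VE {J : Set (Set ℕ)} (hJ : IsMaximalIdeal J) : V J = VE J := by
  have hdual : ∀ A : Set ℕ, A ∈ J ↔ Aᶜ ∉ J := by
    intro A
    constructor
    · intro h1 h2
      apply hJ.1.proper
      have := hJ.1.union_mem _ _ h1 h2
      rwa [union_compl_self] at this
    · intro h
      exact (hJ.2 A).resolve_right h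
  have h1 : ∀ (x : ℕ → ℕ) (s : ℕ → Finset ℕ), {n | x n ∉ s n} ∈ J ↔ {n | x n ∈ s n} ∉ J := by
    intro x s
    rw [hdual]
    have : {n | x n ∉ s n}ᶜ = {n | x n ∈ s n} := by
      ext n
      simp
    rw [this]
  have h2 : ∀ h, FamT h J = FamE h J := by
    intro h
    ext 𝒮
    simp only [FamT, FamE, mem_ofPred_eq, h1]
  have h3 : ∀ h, FamTdual h J = FamEdual h J := by
    intro h
    ext F
    simp only [FamTdual, FamEdual, mem_ofPred_eq, h1, not_not]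
  ext κ
  simp only [V, VE, mem_ofPred_eq, h2, h3]
  refine exists_congr fun h => ?_
  tauto

/-- **A universal ideal.** There is an ideal `J` on `ω` such that all (well-defined) values
`sl_e(h', J')` and `sl_e^⊥(h', J')`, for all ideals `J'` on `ω` and all `h'`, and all elements of
`V_{J'}` for all maximal ideals `J'`, are among the values `sl_e(h, J)` and `sl_e^⊥(h, J)` for this
one `J` (a subset of `V_J`). -/
theorem result : ∃ J : Set (Set ℕ), IsIdeal J ∧ VE J ⊆ V J ∧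
    (∀ J', IsIdeal J' → VE J' ⊆ VE J) ∧ ∀ J', IsMaximalIdeal J' → V J' ⊆ VE J := by
  classical
  suffices h : ∃ J : Set (Set ℕ), IsIdeal J ∧ ∀ J', IsIdeal J' → VE J' ⊆ VE J by
    obtain ⟨J, h1, h2⟩ := h
    refine ⟨J, h1, ?_, h2, fun J' hJ' => ?_⟩
    · rintro κ ⟨h, hh | hh⟩
      · exact ⟨h, Or.inr (Or.inl hh)⟩
      · exact ⟨h, Or.inr (Or.inr (Or.inr hh))⟩
    · rw [V_eq_VE hJ']
      exact h2 J' hJ'.1
  obtain ⟨e⟩ := exists_embedding
  -- the cardinals to be realised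
  let K : Set Cardinal.{0} := {κ | ∃ J', IsIdeal J' ∧ κ ∈ VE J'}
  have hK : ∀ κ ∈ K, κ ∈ Iic (𝔠 : Cardinal.{0}) := by
    rintro κ ⟨J', -, h, ⟨⟨A, -, hA⟩, -⟩ | ⟨⟨A, -, hA⟩, -⟩⟩
    · rw [← hA]
      exact le_continuum_of_slalom A
    · rw [← hA]
      exact le_continuum_of_fun A
  by_cases hne : K.Nonempty
  · have hch : ∀ κ : K, ∃ J', IsIdeal J' ∧ κ.1 ∈ VE J' := fun κ => κ.2
    choose J' hJ' hκJ' using hch
    let f : K → (ℕ → Bool) := fun κ => e ⟨κ.1, hK κ.1 κ.2⟩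
    have hf : Function.Injective f := by
      intro κ κ' h
      have h5 := e.injective h
      have h6 : κ.1 = κ'.1 := congrArg (fun z : Iic (𝔠 : Cardinal.{0}) => z.1) h5
      exact Subtype.ext h6
    let 𝒥 : (ℕ → Bool) → Set (Set ℕ) := fun b =>
      if h : ∃ κ : K, f κ = b then J' (Classical.choose h) else ∅
    have h𝒥f : ∀ κ, 𝒥 (f κ) = J' κ := by
      intro κ
      have h : ∃ κ' : K, f κ' = f κ := ⟨κ, rfl⟩
      simp only [𝒥]
      rw [dif_pos h, hf (Classical.choose_spec h)]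
    have h𝒥 : ∀ b ∈ range f, IsIdeal (𝒥 b) := by
      rintro _ ⟨κ, rfl⟩
      rw [h𝒥f]
      exact hJ' κ
    obtain ⟨κ₀, hκ₀⟩ := hne
    refine ⟨glue (range f) 𝒥, isIdeal_glue ⟨_, ⟨κ₀, hκ₀⟩, rfl⟩ h𝒥, ?_⟩
    intro J'' hJ'' κ hκ
    obtain ⟨h, hh⟩ := hκJ' ⟨κ, J'', hJ'', hκ⟩
    rw [← h𝒥f] at hh
    refine ⟨ext 0 (f ⟨κ, J'', hJ'', hκ⟩) h, ?_⟩
    rcases hh with hh | hh
    · exact Or.inl (famE_glue h𝒥 (mem_range_self _) h hh)
    · exact Or.inr (famEdual_glue h𝒥 (mem_range_self _) h hh)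
  · refine ⟨{A | A.Finite}, ⟨fun _ h => h, fun _ _ h h' => h'.subset h,
      fun _ _ h h' => h.union h', infinite_univ⟩, fun J' hJ' κ hκ => ?_⟩
    exact absurd ⟨κ, J', hJ', hκ⟩ hne

end Pool.Agent.Results.MP_8b2a7f_lc.UniversalIdeal
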